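import Pool.Agent.Helper43K9.AC.Main
import Pool.Agent.Helper43K9.AC.Pis
import Pool.Agent.Helper43K9.AC.Zf
import Pool.Agent.Helper43K9.AC.Str
import Pool.Agent.Helper43K9.AC.Srch

/-!
# The Pisot substitution conjecture for a dominating letter and an acyclic rest, in all letter orders

Letters are `0, ..., m`. `inc σ` is the incidence matrix of `σ` (entry `(i,j)`: number of letters
`i` in `σ j`), `compList [τ₁, ..., τ_k] = τ₁ ∘ ... ∘ τ_k`, `PisotMat M` says that `M` is
unimodular, irreducible and Pisot as in the problem file, `SemiConjToral σ` says that the subshift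
`X σ` is semi-conjugate to a minimal toral translation as in the problem file (all four from the
starting files `Pool/Agent/H812R2/PI/Defs.lean` and `JDefs.lean`).

`M` is a nonnegative integer matrix of determinant `1` or `-1`. `Nz M` is `M` with the row and the
column `0` replaced by `0` (the block `N` of the letters different from `0`), `col M` is the column
`0` without its entry `0`, and `rw0 M x` is `∑_{j ≠ 0} M 0 j * x j` (all three in
`Pool/Agent/Helper43K9/AC/Defs.lean`). The hypotheses are that `N` is nilpotent (the graph of the
letters different from `0` has no cycle) and that `M 0 0 ≥ 8 (W + 1)`, where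
`W = ∑_{s < ν} b N^s a` counts the paths from `0` to `0` through the other letters.

Then `M` is Pisot and irreducible, and every composition of substitutions with the incidence matrix
`M` satisfies the Pisot conjecture: the letters of the images may be in any order, and the order may
differ from member to member. No Pisot hypothesis is needed.
-/

set_option autoImplicit false

namespace Pool.Agent.Results.MP_e732b0_an.AcyclicSmallLetters

open Pool.Agent.H812R2.PI Pool.Agent.Helper43K9.AC

theorem result (m : ℕ) (M : Matrix (Fin (m+1)) (Fin (m+1)) ℤ) (ν : ℕ) (hnn : ∀ i j, 0 ≤ M i j)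
    (hdet : M.det = 1 ∨ M.det = -1) (hnil : Nz M ^ ν = 0)
    (hdom : 8 * ((∑ s ∈ Finset.range ν, rw0 M ((Nz M ^ s).mulVec (col M))) + 1) ≤ M 0 0) :
    PisotMat M ∧ ∀ l : List (Fin (m+1) → List (Fin (m+1))), l ≠ [] → (∀ τ ∈ l, inc τ = M) →
      PisotMat (inc (compList l)) ∧ SemiConjToral (compList l) := by
  have h : Ac M ν := ⟨hnn, hnil, by
    unfold CC cc qq
    rw [Nat.Ico_zero_eq_range]
    exact hdom, hdet⟩
  exact ⟨pis m M ν h, fun l hne hl => main pis zf str srch h hne hl⟩

end Pool.Agent.Results.MP_e732b0_an.AcyclicSmallLetters
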