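import Pool.Agent.Helper65K9.PSC.DecMain

/-!
# The Pisot substitution conjecture for all letter orders of nonincreasing companion matrices

Letters are `0, ..., m` with `m ≥ 1`. `inc σ` is the incidence matrix of `σ` (entry `(i,j)`: number
of letters `i` in `σ j`), `compList [τ₁, ..., τ_k] = τ₁ ∘ ... ∘ τ_k`, `PisotMat M` says that `M` is
unimodular, irreducible and Pisot as in the problem file, `SemiConjToral σ` says that the subshift
`X σ` is semi-conjugate to a minimal toral translation as in the problem file (all four from the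
starting files `Pool/Agent/H812R2/PI/Defs.lean` and `JDefs.lean`).

`IsCompanion a τ` (in `Pool/Agent/Helper65K9/PSC/Form.lean`) says that `inc τ` is the companion
matrix of `a`: column `j < m` is `a_j e_0 + e_{j+1}`, column `m` is `a_m e_0`. With `a_m = 1` this
means: `τ j` (`j < m`) is any arrangement of `a_j` letters `0` and one letter `j+1`, `τ m = 0`.

The vector `a` is fixed, with `a_1 ≥ a_2 ≥ ... ≥ a_m = 1`, `a_0 ≥ a_1 + 3` and `a_0 ≥ 5`. The
letters of the images may be in any order, and may differ from member to member of the list. No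
Pisot hypothesis is needed.
-/

set_option autoImplicit false

namespace Pool.Agent.Results.MP_e732b0_an.DecreasingCompanion

open Pool.Agent.H812R2.PI Pool.Agent.Helper65K9.PSC

theorem result (m : ℕ) (hm : 1 ≤ m) (a : Fin (m+1) → ℕ) (ham : a (Fin.last m) = 1)
    (hanti : ∀ i j : Fin (m+1), 1 ≤ i → i ≤ j → a j ≤ a i) (h5 : 5 ≤ a 0)
    (hgap : ∀ j : Fin (m+1), 1 ≤ j → a j + 3 ≤ a 0)
    (l : List (Fin (m+1) → List (Fin (m+1)))) (hne : l ≠ []) (hl : ∀ τ ∈ l, IsCompanion a τ) :
    PisotMat (inc (compList l)) ∧ SemiConjToral (compList l) :=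
  dec_semi ⟨hm, ham, hanti, h5, hgap⟩ hne hl

end Pool.Agent.Results.MP_e732b0_an.DecreasingCompanion
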