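import Pool.Agent.Helper65K9.PSC.DomPis
import Pool.Agent.Helper65K9.PSC.Form

/-!
# The Pisot substitution conjecture for compositions of dominated companion substitutions

Letters are `0, ..., m` with `m ≥ 1`. `inc σ` is the incidence matrix of `σ` (entry `(i,j)`: number
of letters `i` in `σ j`), `compList [τ₁, ..., τ_k] = τ₁ ∘ ... ∘ τ_k`, `PisotMat M` says that `M` is
unimodular, irreducible and Pisot as in the problem file, `SemiConjToral σ` says that the subshift
`X σ` is semi-conjugate to a minimal toral translation as in the problem file (all four from the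
starting files `Pool/Agent/H812R2/PI/Defs.lean` and `JDefs.lean`).

`IsCompanion a τ` (in `Pool/Agent/Helper65K9/PSC/Form.lean`) says that `inc τ` is the companion
matrix of `a`: column `j < m` is `a_j e_0 + e_{j+1}`, column `m` is `a_m e_0`. With `a_m = 1` this
means: `τ j` (`j < m`) is any arrangement of `a_j` letters `0` and one letter `j+1`, `τ m = 0`.

The vectors `a` may differ from member to member of the list. The only conditions are `a_m = 1`,
`a_0 ≥ 5` and `a_0 ≥ a_1 + ... + a_m + 2`; the other entries `a_j ≥ 0` are arbitrary, and so is the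
order of the letters in the images. No Pisot hypothesis is needed.
-/

set_option autoImplicit false

namespace Pool.Agent.Results.MP_e732b0_an.DominantCompanion

open Pool.Agent.H812R2.PI Pool.Agent.Helper65K9.PSC
open scoped BigOperators

theorem result (m : ℕ) (hm : 1 ≤ m) (l : List (Fin (m+1) → List (Fin (m+1)))) (hne : l ≠ [])
    (hl : ∀ τ ∈ l, ∃ a : Fin (m+1) → ℕ, IsCompanion a τ ∧ a (Fin.last m) = 1 ∧ 5 ≤ a 0 ∧
      ∑ j ∈ Finset.univ.erase (0 : Fin (m+1)), a j + 2 ≤ a 0) :
    PisotMat (inc (compList l)) ∧ SemiConjToral (compList l) := by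
  have hD : DmL l := by
    intro t ht
    obtain ⟨a, h1, h2, h3, h4⟩ := hl t ht
    exact ⟨a, h1.cmp h2, h2, h3, h4⟩
  have hM := dom_pisot hne hD
  exact ⟨hM, dom_semi hm hne hD hM⟩

end Pool.Agent.Results.MP_e732b0_an.DominantCompanion
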