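import Pool.Agent.Helper43K9.AC.Expl

/-!
# Uniform absorption for the Pisot substitution conjecture

`inc σ` is the incidence matrix of `σ`, `compList [τ₁, ..., τ_k] = τ₁ ∘ ... ∘ τ_k`, `PisotMat M` says
that `M` is unimodular, irreducible and Pisot, `SemiConjToral σ` is the conclusion of the problem,
`SubSet u A B` is the set of the substitutions with incidence matrix `A` and discrepancy at most `B`
(starting library `Pool/Agent/H812R2/PI`), `Coinc σ` is the geometric coincidence condition of the
starting result `NonCommutingAbsorption`.

`CoincAll F` says that all compositions of one or more members of the set `F` satisfy `Coinc`.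
`Explicit A` says that `A` has a dominating letter and an acyclic rest, as in
`AcyclicSmallLetters`, or is one of the companion matrices (of one vector) of `DominantCompanion` and
`DecreasingCompanion`. For such `A` this holds for the set of ALL substitutions with incidence
matrix `A`, the letters of the images in any order (first part).

Second part: let `M i` be finitely many nonnegative unimodular irreducible Pisot matrices (they need
not commute) and let `F i` be sets of substitutions with incidence matrix `M i` with
`CoincAll (F i)` (possibly empty). For all `T` and `B` there is ONE `K` such that the following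
holds for all compositions of blocks `ρ ∘ τ`, where `ρ` is an arbitrary substitution with determinant
`± 1` and images of length at most `T`, and `τ` has incidence matrix `M i ^ k` and discrepancy at most
`B`, or is any composition of `k` substitutions with incidence matrix `M i`, `k ≥ K` (`OBlock`). If
one of the blocks is `ρ ∘ t₁ ∘ ... ∘ t_k` with `k ≥ K` and `t₁, ..., t_k` in the same `F i`, then the
composition is a unimodular irreducible Pisot substitution with the coincidence condition, and it
satisfies the conclusion of the Pisot conjecture. For `F i = {σ}` this is the starting result; for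
the explicit matrices the `t_j` are arbitrary, and `K` is the same for all of them.
-/

set_option autoImplicit false

namespace Pool.Agent.Results.MP_e732b0_an.UniformAbsorption

open Pool.Agent.H812R2.PI Pool.Agent.Helper43K9.AC
open Pool.Agent.R889.PZ (Coinc)
open scoped BigOperators

theorem result {m : ℕ} {ι : Type} [Fintype ι] (M : ι → Matrix (Fin (m+1)) (Fin (m+1)) ℤ)
    (hnn : ∀ i a b, 0 ≤ M i a b) (hM : ∀ i, PisotMat (M i)) (lam : ι → ℝ) (hlam : ∀ i, 1 < lam i)
    (u : ι → Fin (m+1) → ℝ) (hu : ∀ i a, ∑ b, (M i a b : ℝ) * u i b = lam i * u i a)
    (husum : ∀ i, ∑ a, u i a = 1) :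
    (∀ A : Matrix (Fin (m+1)) (Fin (m+1)) ℤ, Explicit A →
      (∀ i j, 0 ≤ A i j) ∧ PisotMat A ∧ CoincAll {t | inc t = A}) ∧
    ∀ F : ι → Set (Fin (m+1) → List (Fin (m+1))), (∀ i, ∀ t ∈ F i, inc t = M i) →
      (∀ i, CoincAll (F i)) → ∀ (T : ℕ) (B : ℝ), ∃ K : ℕ,
        ∀ l : List (Fin (m+1) → List (Fin (m+1))), (∀ τ ∈ l, OBlock M u B T K τ) →
          (∃ (i : ι) (ρ : Fin (m+1) → List (Fin (m+1)))
            (L : List (Fin (m+1) → List (Fin (m+1)))),
            ((inc ρ).det = 1 ∨ (inc ρ).det = -1) ∧ K ≤ L.length ∧ (∀ t ∈ L, t ∈ F i) ∧
            comp ρ (compList L) ∈ l) →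
          PisotMat (inc (compList l)) ∧ Coinc (compList l) ∧ SemiConjToral (compList l) :=
  ⟨fun _ hA => explicit_ok hA, fun F hFM hFC T B =>
    cblocks M hnn hM lam hlam u hu husum F hFM hFC T B⟩

end Pool.Agent.Results.MP_e732b0_an.UniformAbsorption
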